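import Pool.Agent.Helper14.TT.StL
import Pool.Agent.Helper92.CV.M_Itr

/-!
# Project TT, module ItrT: iteration for the twisted path
-/

set_option autoImplicit false

namespace Pool.Agent.Helper69.TT

open Pool.Agent.Helper14.TT Pool.Agent.Helper14.CV
open Pool.Agent.Helper92.CV (Ph iter3 iter5 low_L3 low_L5 eq_of_add_zero mem_shift)

section

variable {r s : ℕ}

private theorem comm35 (hc : (dx * dy : Module.End (ZMod 2) (Fn (2 ^ r) (2 ^ s))) = dy * dx) :
    Commute (L3 : Module.End (ZMod 2) (Fn (2 ^ r) (2 ^ s))) L5 := by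
  have h : Commute (dx : Module.End (ZMod 2) (Fn (2 ^ r) (2 ^ s))) dy := hc
  have hx : Commute (dx : Module.End (ZMod 2) (Fn (2 ^ r) (2 ^ s))) (dx ^ 2 * dy ^ 2) :=
    ((Commute.refl _).pow_right 2).mul_right (h.pow_right 2)
  have hy : Commute (dy : Module.End (ZMod 2) (Fn (2 ^ r) (2 ^ s))) (dx ^ 2 * dy ^ 2) :=
    (h.symm.pow_right 2).mul_right ((Commute.refl _).pow_right 2)
  unfold L3 L5
  exact (hx.mul_left hy).mul_left (hx.add_left hy)

/-- the common argument -/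
private theorem fin_gen {O : Module.End (ZMod 2) (Fn (2 ^ r) (2 ^ s))} {k e : ℤ}
    (hmono : ∀ d d' : ℤ, d ≤ d' → (Wd d : Submodule (ZMod 2) (Fn (2 ^ r) (2 ^ s))) ≤ Wd d')
    (hz : ∀ F : Fn (2 ^ r) (2 ^ s), F ∈ Wd (-1) → F = 0)
    (hO : Low O k) {F H : Fn (2 ^ r) (2 ^ s)} (hF : F ∈ Wd e) (hH : F + H ∈ Wd (e - 1)) :
    (e < k → O F = 0) ∧ (e = k → O F = O H) := by
  constructor
  · intro h
    exact hz _ (hmono _ _ (by linarith [Int.add_one_le_iff.2 h]) (hO e F hF))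
  · intro h
    have h1 := hz _ (hmono _ (-1) (by linarith) (hO (e - 1) _ hH))
    rw [map_add] at h1
    exact eq_of_add_zero h1

end

theorem hItrT (hX3 : X3) (hA : X7A) (hB : X7B) (hRel : StRel) (hHkB : StHkB) (hHk3 : StHk3)
    (hHk5 : StHk5) (hLow0 : StLow0) (hLd3 : StLd3) (hLd5 : StLd5) : ItrT := by
  intro l r s G F1 d hl hr hs hrs hG hF1 hd i j
  have hF : F1 = Ph r s G := by
    funext x y
    exact hF1 x y
  rw [hF] at hd ⊢
  obtain ⟨a1, a2, a3⟩ := iter5 hRel hHkB hHk5 hLow0 hLd5 hrs hG hd j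
  obtain ⟨b1, b2, b3⟩ := iter3 hRel hHkB hHk3 hLow0 hLd3 hrs a1 a2 a3 i
  obtain ⟨hm, -, -, hmono, -, -, -, hc, -, -, -, -, hz⟩ := hLow0 r s
  have hev : evXb l (2 ^ (r + 1)) G i j =
      eXb l (2 ^ (r + 1)) ((Tl 3 (2 ^ (r + 1)))^[i] ((Tl 5 (2 ^ (r + 1)))^[j] G)) := rfl
  rcases hl.2 with h8 | h7
  · have hsh : sh l = 0 := by
      unfold sh
      rw [if_neg]
      intro h
      rw [h] at h8
      norm_num at h8
    rw [hsh]
    have hgen := fin_gen (e := (d : ℤ) - 4 * j - 3 * i) hmono hz (low_L3 hLow0) b2 b3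
    have hval : (d : ℤ) - 4 * j - 3 * i ≤ 3 → eXb l (2 ^ (r + 1))
        ((Tl 3 (2 ^ (r + 1)))^[i] ((Tl 5 (2 ^ (r + 1)))^[j] G)) =
        ((L3 : Module.End (ZMod 2) (Fn (2 ^ r) (2 ^ s)))
          (Ph r s ((Tl 3 (2 ^ (r + 1)))^[i] ((Tl 5 (2 ^ (r + 1)))^[j] G)))) 0 0 := fun h =>
      hX3 l r s _ _ hl.1 h8 hr hs b1 (fun _ _ => rfl) (hmono _ _ h b2)
    constructor
    · intro hlt
      have h1 : (d : ℤ) - 4 * j - 3 * i < 3 := by
        have : (d : ℤ) < 3 * (i + 1) + 4 * (j + 0) := by exact_mod_cast hlt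
        linarith
      rw [hev, hval h1.le, hgen.1 h1]
      rfl
    · intro heq
      have h1 : (d : ℤ) - 4 * j - 3 * i = 3 := by
        have : (3 * (i + 1) + 4 * (j + 0) : ℤ) = d := by exact_mod_cast heq
        linarith
      rw [hev, hval h1.le, hgen.2 h1, pow_succ', add_zero, Module.End.mul_apply,
        Module.End.mul_apply]
  · have hsh : sh l = 1 := by
      unfold sh
      rw [if_pos h7]
    rw [hsh]
    have hlow : Low (L3 * L5 : Module.End (ZMod 2) (Fn (2 ^ r) (2 ^ s))) (3 + 4) :=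
      hm _ _ _ _ (low_L3 hLow0) (low_L5 hLow0)
    have hgen := fin_gen (e := (d : ℤ) - 4 * j - 3 * i) hmono hz hlow b2 b3
    have hval : (d : ℤ) - 4 * j - 3 * i ≤ 7 → eXb l (2 ^ (r + 1))
        ((Tl 3 (2 ^ (r + 1)))^[i] ((Tl 5 (2 ^ (r + 1)))^[j] G)) =
        ((L3 * L5 : Module.End (ZMod 2) (Fn (2 ^ r) (2 ^ s)))
          (Ph r s ((Tl 3 (2 ^ (r + 1)))^[i] ((Tl 5 (2 ^ (r + 1)))^[j] G)))) 0 0 := fun h => by
      rw [h7]
      exact (hA r s _ _ b1 (fun _ _ => rfl)).trans (hB r s _ (hmono _ _ h b2))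
    constructor
    · intro hlt
      have h1 : (d : ℤ) - 4 * j - 3 * i < 3 + 4 := by
        have : (d : ℤ) < 3 * (i + 1) + 4 * (j + 1) := by exact_mod_cast hlt
        linarith
      rw [hev, hval (by linarith), hgen.1 h1]
      rfl
    · intro heq
      have h1 : (d : ℤ) - 4 * j - 3 * i = 3 + 4 := by
        have : (3 * (i + 1) + 4 * (j + 1) : ℤ) = d := by exact_mod_cast heq
        linarith
      have hcm := (comm35 (r := r) (s := s) hc).symm.pow_right i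
      have e : (L3 ^ (i + 1) * L5 ^ (j + 1) : Module.End (ZMod 2) (Fn (2 ^ r) (2 ^ s))) =
          L3 * L5 * (L3 ^ i * L5 ^ j) := by
        rw [pow_succ', pow_succ' L5, mul_assoc, mul_assoc, ← mul_assoc (L3 ^ i) L5, ← hcm.eq,
          mul_assoc]
      rw [hev, hval (by linarith), hgen.2 h1, e, Module.End.mul_apply (L3 * L5),
        Module.End.mul_apply (L3 ^ i)]

end Pool.Agent.Helper69.TT
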